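import Pool.Agent.Helper74K9.PS.St
import Pool.Agent.Helper83K9.CF.Farkas

/-! # [LPW]: the maximal feasible function and the weights on its tight cliques -/

set_option autoImplicit false

namespace Pool.Agent.Helper87K9.PS

open Finset Pool.Agent.Helper83K9.CF Pool.Agent.Helper74K9.PS

namespace LpwL

variable {q : ℕ → ℕ → Prop} {k N t : ℕ} {f : ℕ → ℝ}

/-- the feasible functions vanishing outside `range N` -/
def PP (q : ℕ → ℕ → Prop) (k N t : ℕ) : Set (ℕ → ℝ) :=
  {f | Feas q k N t f ∧ ∀ v, N ≤ v → f v = 0}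

theorem le_t (ht : 1 ≤ t) (hf : f ∈ PP q k N t) (v : ℕ) : f v ≤ t := by
  rcases Nat.lt_or_ge v N with hv | hv
  · have h := hf.1.le {v} ⟨⟨v, by simp⟩, by simpa using hv, by
      intro x hx y hy hxy
      rw [Finset.mem_singleton] at hx hy
      omega⟩ (by simpa using ht)
    simpa using h
  · rw [hf.2 v hv]; positivity

theorem compact (ht : 1 ≤ t) : IsCompact (PP q k N t) := by
  have h1 : IsCompact (Set.pi Set.univ (fun _ : ℕ => Set.Icc (0 : ℝ) t)) :=
    isCompact_univ_pi fun _ => isCompact_Icc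
  have h2 : IsClosed (PP q k N t) := by
    have e : PP q k N t = (⋂ v, {f : ℕ → ℝ | 0 ≤ f v}) ∩ (⋂ v, ⋂ (_ : v < k), {f : ℕ → ℝ | f v ≤ 1}) ∩
        (⋂ Y : Finset ℕ, ⋂ (_ : Cq q k N Y), ⋂ (_ : Y.card ≤ t), {f : ℕ → ℝ | ∑ x ∈ Y, f x ≤ t}) ∩
        (⋂ v, ⋂ (_ : N ≤ v), {f : ℕ → ℝ | f v = 0}) := by
      ext f
      simp only [PP, Set.mem_ofPred_eq, Set.mem_inter_iff, Set.mem_iInter]
      constructor
      · rintro ⟨⟨a, b, c⟩, d⟩
        exact ⟨⟨⟨a, b⟩, c⟩, d⟩
      · rintro ⟨⟨⟨a, b⟩, c⟩, d⟩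
        exact ⟨⟨a, b, c⟩, d⟩
    rw [e]
    refine ((IsClosed.inter ?_ ?_).inter ?_).inter ?_
    · exact isClosed_iInter fun v => isClosed_le continuous_const (continuous_apply v)
    · exact isClosed_iInter fun v => isClosed_iInter fun _ =>
        isClosed_le (continuous_apply v) continuous_const
    · exact isClosed_iInter fun Y => isClosed_iInter fun _ => isClosed_iInter fun _ =>
        isClosed_le (continuous_finsetSum _ fun x _ => continuous_apply x) continuous_const
    · exact isClosed_iInter fun v => isClosed_iInter fun _ =>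
        isClosed_eq (continuous_apply v) continuous_const
  refine h1.of_isClosed_subset h2 fun f hf => ?_
  intro v _
  exact ⟨hf.1.nonneg v, le_t ht hf v⟩

theorem start (ht : 1 ≤ t) (μ s : ℕ → ℝ) (hs : ∀ x, x < k → 0 ≤ s x)
    (hK : ∀ K, LCl q k N t K → 0 ≤ ∑ x ∈ K, s x) (hneg : ∑ x ∈ range N, s x * μ x < 0) :
    ∃ f ∈ PP q k N t, 0 < ∑ v ∈ range N, μ v * (f v - 1) := by
  classical
  set Θ : ℝ := 1 + ∑ v ∈ range N, |s v| with hΘ
  have hΘ0 : 0 < Θ := by
    have : 0 ≤ ∑ v ∈ range N, |s v| := Finset.sum_nonneg fun _ _ => abs_nonneg _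
    linarith
  have hsv : ∀ v, v < N → s v ≤ Θ := by
    intro v hv
    have h1 := Finset.single_le_sum (f := fun v => |s v|) (fun _ _ => abs_nonneg _)
      (Finset.mem_range.2 hv)
    have h2 := le_abs_self (s v)
    linarith
  refine ⟨fun v => if v < N then 1 - s v / Θ else 0, ⟨⟨?_, ?_, ?_⟩, ?_⟩, ?_⟩
  · intro v
    show 0 ≤ (if v < N then 1 - s v / Θ else 0)
    split_ifs with h
    · have := hsv v h
      have h3 : s v / Θ ≤ 1 := (div_le_one hΘ0).2 this
      linarith
    · exact le_rfl
  · intro v hv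
    show (if v < N then 1 - s v / Θ else 0) ≤ 1
    split_ifs with h
    · have := div_nonneg (hs v hv) hΘ0.le
      linarith
    · norm_num
  · intro Y hY hc
    show ∑ x ∈ Y, (if x < N then 1 - s x / Θ else 0) ≤ t
    have h1 : ∑ x ∈ Y, (if x < N then 1 - s x / Θ else 0) = Y.card - (∑ x ∈ Y, s x) / Θ := by
      rw [Finset.sum_div, Finset.card_eq_sum_ones]
      push_cast
      rw [← Finset.sum_sub_distrib]
      exact Finset.sum_congr rfl fun x hx => if_pos (Finset.mem_range.1 (hY.2.1 hx))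
    rw [h1]
    rcases Nat.lt_or_ge Y.card t with hlt | hge
    · have h2 : -∑ x ∈ Y, s x ≤ Θ := by
        have h3 : |∑ x ∈ Y, s x| ≤ ∑ v ∈ range N, |s v| :=
          (Finset.abs_sum_le_sum_abs _ _).trans
            (Finset.sum_le_sum_of_subset_of_nonneg hY.2.1 fun _ _ _ => abs_nonneg _)
        have h4 := neg_abs_le (∑ x ∈ Y, s x)
        linarith
      have h5 : -(∑ x ∈ Y, s x) / Θ ≤ 1 := (div_le_one hΘ0).2 h2
      rw [neg_div] at h5
      have h6 : (Y.card : ℝ) + 1 ≤ t := by exact_mod_cast hlt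
      linarith
    · have h7 : Y.card = t := le_antisymm hc hge
      have h8 := hK Y ⟨hY.2.1, h7, hY.2.2⟩
      have h9 := div_nonneg h8 hΘ0.le
      rw [h7]
      linarith
  · intro v hv
    show (if v < N then 1 - s v / Θ else 0) = 0
    rw [if_neg (by omega)]
  · have h1 : ∑ v ∈ range N, μ v * ((if v < N then 1 - s v / Θ else 0) - 1) =
        -(∑ x ∈ range N, s x * μ x) / Θ := by
      rw [neg_div, Finset.sum_div, ← Finset.sum_neg_distrib]
      refine Finset.sum_congr rfl fun v hv => ?_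
      rw [if_pos (Finset.mem_range.1 hv)]
      ring
    rw [h1]
    exact div_pos (by linarith) hΘ0

theorem exists_max (ht : 1 ≤ t) (μ s : ℕ → ℝ) (hs : ∀ x, x < k → 0 ≤ s x)
    (hK : ∀ K, LCl q k N t K → 0 ≤ ∑ x ∈ K, s x) (hneg : ∑ x ∈ range N, s x * μ x < 0) :
    ∃ f ∈ PP q k N t, (∀ g ∈ PP q k N t, ∑ v ∈ range N, μ v * g v ≤ ∑ v ∈ range N, μ v * f v) ∧
      0 < ∑ v ∈ range N, μ v * (f v - 1) := by
  obtain ⟨f₀, hf₀, h0⟩ := start ht μ s hs hK hneg
  obtain ⟨f, hf, hmax⟩ := (compact (q := q) (k := k) (N := N) ht).exists_isMaxOn ⟨f₀, hf₀⟩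
    (f := fun f : ℕ → ℝ => ∑ v ∈ range N, μ v * f v)
    (Continuous.continuousOn (continuous_finsetSum _ fun v _ =>
      continuous_const.mul (continuous_apply v)))
  refine ⟨f, hf, fun g hg => hmax hg, ?_⟩
  have h1 := hmax hf₀
  simp only at h1
  have e : ∀ g : ℕ → ℝ, ∑ v ∈ range N, μ v * (g v - 1) =
      ∑ v ∈ range N, μ v * g v - ∑ v ∈ range N, μ v := by
    intro g
    rw [← Finset.sum_sub_distrib]
    exact Finset.sum_congr rfl fun v _ => by ring
  rw [e] at h0 ⊢
  have h2 : ∑ v ∈ range N, μ v * f₀ v ≤ ∑ v ∈ range N, μ v * f v := h1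
  linarith

/-- the directions -/
theorem direction (ht : 1 ≤ t) (μ : ℕ → ℝ) (hf : f ∈ PP q k N t)
    (hmax : ∀ g ∈ PP q k N t, ∑ v ∈ range N, μ v * g v ≤ ∑ v ∈ range N, μ v * f v)
    (σ : ℕ → ℝ) (h0 : ∀ v, ¬ (0 < f v) → σ v = 0) (hN : ∀ v, N ≤ v → σ v = 0)
    (h1 : ∀ v, v < k → f v = 1 → 0 ≤ σ v) (h2 : ∀ Y, Tgt q k N t f Y → 0 ≤ ∑ v ∈ Y, σ v) :
    0 ≤ ∑ v ∈ range N, μ v * σ v := by
  classical
  -- small steps are feasible
  have ev : ∀ᶠ ε : ℝ in nhdsWithin 0 (Set.Ioi 0), (fun v => f v - ε * σ v) ∈ PP q k N t := by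
    have lin : ∀ a b c : ℝ, a < c → ∀ᶠ ε : ℝ in nhdsWithin 0 (Set.Ioi 0), a - ε * b < c := by
      intro a b c hac
      have : Filter.Tendsto (fun ε : ℝ => a - ε * b) (nhdsWithin 0 (Set.Ioi 0)) (nhds (a - 0 * b)) :=
        ((continuous_const.sub (continuous_id.mul continuous_const)).tendsto 0).mono_left
          nhdsWithin_le_nhds
      exact this.eventually_lt_const (by simpa using hac)
    have lin' : ∀ a b : ℝ, 0 < a → ∀ᶠ ε : ℝ in nhdsWithin 0 (Set.Ioi 0), 0 ≤ a - ε * b := by
      intro a b ha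
      have := lin (-a) (-b) 0 (by linarith)
      filter_upwards [this] with ε hε
      linarith
    have A : ∀ᶠ ε : ℝ in nhdsWithin 0 (Set.Ioi 0), ∀ v ∈ range N, 0 ≤ f v - ε * σ v := by
      rw [Filter.eventually_all_finset]
      intro v _
      by_cases hv : 0 < f v
      · exact lin' _ _ hv
      · refine Filter.Eventually.of_forall fun ε => ?_
        rw [h0 v hv, mul_zero, sub_zero]
        exact hf.1.nonneg v
    have B : ∀ᶠ ε : ℝ in nhdsWithin 0 (Set.Ioi 0), ∀ v ∈ range k, f v - ε * σ v ≤ 1 := by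
      rw [Filter.eventually_all_finset]
      intro v hv
      have hvk := Finset.mem_range.1 hv
      rcases (hf.1.first v hvk).lt_or_eq with h | h
      · filter_upwards [lin (f v) (σ v) 1 h] with ε hε using hε.le
      · filter_upwards [self_mem_nhdsWithin] with ε hε
        have h3 : 0 ≤ ε * σ v := mul_nonneg (Set.mem_Ioi.1 hε).le (h1 v hvk h)
        linarith
    have C : ∀ᶠ ε : ℝ in nhdsWithin 0 (Set.Ioi 0), ∀ Y ∈ (range N).powerset,
        Cq q k N Y → Y.card ≤ t → ∑ x ∈ Y, (f x - ε * σ x) ≤ t := by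
      rw [Filter.eventually_all_finset]
      intro Y _
      by_cases hY : Cq q k N Y ∧ Y.card ≤ t
      · rcases (hf.1.le Y hY.1 hY.2).lt_or_eq with h | h
        · filter_upwards [lin _ (∑ x ∈ Y, σ x) _ h] with ε hε _ _
          rw [Finset.sum_sub_distrib, ← Finset.mul_sum]
          exact hε.le
        · filter_upwards [self_mem_nhdsWithin] with ε hε _ _
          rw [Finset.sum_sub_distrib, ← Finset.mul_sum, h]
          have hf0 : ∀ x, ¬ 0 < f x → f x = 0 := fun x hx => le_antisymm (not_lt.1 hx) (hf.1.nonneg x)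
          have e1 : ∑ x ∈ Y.filter (fun x => 0 < f x), f x = t := by
            rw [← h]
            refine Finset.sum_subset (Finset.filter_subset _ _) fun x hx hx2 => ?_
            exact hf0 x fun h3 => hx2 (Finset.mem_filter.2 ⟨hx, h3⟩)
          have e2 : ∑ x ∈ Y.filter (fun x => 0 < f x), σ x = ∑ x ∈ Y, σ x := by
            refine Finset.sum_subset (Finset.filter_subset _ _) fun x hx hx2 => ?_
            exact h0 x fun h3 => hx2 (Finset.mem_filter.2 ⟨hx, h3⟩)
          have e3 : Tgt q k N t f (Y.filter (fun x => 0 < f x)) := by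
            refine ⟨⟨?_, (Finset.filter_subset _ _).trans hY.1.2.1, ?_⟩,
              (Finset.card_le_card (Finset.filter_subset _ _)).trans hY.2, ?_, e1⟩
            · by_contra hne
              rw [Finset.not_nonempty_iff_eq_empty] at hne
              rw [hne, Finset.sum_empty] at e1
              have : (1 : ℝ) ≤ t := by exact_mod_cast ht
              linarith
            · intro x hx y hy hxy
              exact hY.1.2.2 x (Finset.mem_filter.1 hx).1 y (Finset.mem_filter.1 hy).1 hxy
            · intro v hv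
              exact (Finset.mem_filter.1 hv).2
          have h4 := h2 _ e3
          rw [e2] at h4
          have h5 : 0 ≤ ε * ∑ x ∈ Y, σ x := mul_nonneg (Set.mem_Ioi.1 hε).le h4
          linarith
      · refine Filter.Eventually.of_forall fun ε h3 h4 => absurd ⟨h3, h4⟩ hY
    filter_upwards [A, B, C] with ε hA hB hC
    refine ⟨⟨?_, ?_, ?_⟩, ?_⟩
    · intro v
      rcases Nat.lt_or_ge v N with hv | hv
      · exact hA v (Finset.mem_range.2 hv)
      · show 0 ≤ f v - ε * σ v
        rw [hf.2 v hv, hN v hv]; simp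
    · intro v hv
      exact hB v (Finset.mem_range.2 hv)
    · intro Y hY hc
      exact hC Y (Finset.mem_powerset.2 hY.2.1) hY hc
    · intro v hv
      show f v - ε * σ v = 0
      rw [hf.2 v hv, hN v hv]; simp
  obtain ⟨ε, hε, hpos⟩ := (ev.and self_mem_nhdsWithin).exists
  have hε0 : 0 < ε := hpos
  have h3 := hmax _ hε
  have h4 : ∑ v ∈ range N, μ v * (f v - ε * σ v) =
      ∑ v ∈ range N, μ v * f v - ε * ∑ v ∈ range N, μ v * σ v := by
    rw [Finset.mul_sum, ← Finset.sum_sub_distrib]
    exact Finset.sum_congr rfl fun v _ => by ring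
  rw [h4] at h3
  have h5 : 0 ≤ ε * ∑ v ∈ range N, μ v * σ v := by linarith
  exact nonneg_of_mul_nonneg_right h5 hε0

end LpwL

open LpwL

theorem lpw : S_LPW := by
  classical
  intro t k N q μ s ht hk hqr hqs hμ hs hK hneg
  obtain ⟨f, hf, hmax, hpos⟩ := exists_max ht μ s hs hK hneg
  have hf0 : ∀ x, ¬ 0 < f x → f x = 0 := fun x hx => le_antisymm (not_lt.1 hx) (hf.1.nonneg x)
  set VV : Finset ℕ := (range N).filter (fun v => 0 < f v) with hVV
  set TT : Finset (Finset ℕ) := (range N).powerset.filter (fun Y => Tgt q k N t f Y) with hTT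
  set LL : Finset ℕ := VV.filter (fun v => v < k ∧ f v = 1) with hLL
  have hTV : ∀ Y ∈ TT, ∀ v ∈ Y, v ∈ VV := by
    intro Y hY v hv
    rw [hTT, Finset.mem_filter, Finset.mem_powerset] at hY
    rw [hVV, Finset.mem_filter]
    exact ⟨hY.1 hv, hY.2.pos v hv⟩
  obtain ⟨ω, hω0, hω⟩ := farkas VV (TT ⊕ LL)
    (fun v i => Sum.elim (fun Y : TT => if (v : ℕ) ∈ (Y : Finset ℕ) then (1 : ℝ) else 0)
      (fun u : LL => if (v : ℕ) = (u : ℕ) then (1 : ℝ) else 0) i)
    (fun v => μ v) (fun _ => False) (by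
      intro σ' _ hσ'
      set σ : ℕ → ℝ := fun v => if h : v ∈ VV then σ' ⟨v, h⟩ else 0 with hσ
      have e0 : ∀ (g : ℕ → ℝ), ∑ v : VV, σ' v * g v = ∑ v ∈ VV, σ v * g v := by
        intro g
        rw [← Finset.sum_coe_sort VV (fun v => σ v * g v)]
        refine Finset.sum_congr rfl fun v _ => ?_
        rw [hσ]
        simp only [v.2, dif_pos]
      have e1 : ∀ v, v ∉ VV → σ v = 0 := fun v hv => by rw [hσ]; simp only [hv, dif_neg, not_false_iff]
      have e2 : ∀ (U : Finset ℕ), U ⊆ VV → ∑ v ∈ VV, σ v * (if v ∈ U then (1 : ℝ) else 0) =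
          ∑ v ∈ U, σ v := by
        intro U hU
        simp only [mul_ite, mul_one, mul_zero]
        rw [← Finset.sum_filter]
        congr 1
        ext v
        simp only [Finset.mem_filter]
        exact ⟨fun h => h.2, fun h => ⟨hU h, h⟩⟩
      have key := direction ht μ hf hmax σ (fun v hv => e1 v fun h => hv (Finset.mem_filter.1 h).2)
        (fun v hv => e1 v fun h => by
          have := Finset.mem_range.1 (Finset.mem_filter.1 h).1
          omega)
        (fun v hvk hv1 => by
          by_cases hvN : v < N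
          · have hv : v ∈ VV := Finset.mem_filter.2 ⟨Finset.mem_range.2 hvN, by rw [hv1]; norm_num⟩
            have h3 := hσ' (Sum.inr ⟨v, Finset.mem_filter.2 ⟨hv, hvk, hv1⟩⟩)
            simp only [Sum.elim_inr] at h3
            rw [e0 (fun u => if u = v then (1 : ℝ) else 0)] at h3
            have h4 := e2 {v} (by simpa using hv)
            simp only [Finset.mem_singleton, Finset.sum_singleton] at h4
            rwa [h4] at h3
          · rw [e1 v fun h => hvN (Finset.mem_range.1 (Finset.mem_filter.1 h).1)])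
        (fun Y hY => by
          have hYT : Y ∈ TT := Finset.mem_filter.2 ⟨Finset.mem_powerset.2 hY.cq.2.1, hY⟩
          have h3 := hσ' (Sum.inl ⟨Y, hYT⟩)
          simp only [Sum.elim_inl] at h3
          rw [e0 (fun u => if u ∈ Y then (1 : ℝ) else 0), e2 Y (fun v hv => hTV Y hYT v hv)] at h3
          exact h3)
      have h5 : ∑ v ∈ range N, μ v * σ v = ∑ v : VV, σ' v * μ v := by
        rw [e0 μ]
        symm
        have h6 : ∑ v ∈ VV, σ v * μ v = ∑ v ∈ range N, σ v * μ v :=
          Finset.sum_subset (Finset.filter_subset _ _) fun v _ hv => by rw [e1 v hv, zero_mul]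
        rw [h6]
        exact Finset.sum_congr rfl fun v _ => mul_comm _ _
      rw [h5] at key
      exact key)
  set w : Finset ℕ → ℝ := fun Y => if h : Y ∈ TT then ω (Sum.inl ⟨Y, h⟩) else 0 with hw
  set lam : ℕ → ℝ := fun v => if h : v ∈ LL then ω (Sum.inr ⟨v, h⟩) else 0 with hlam
  have hw0 : ∀ Y, 0 ≤ w Y := by
    intro Y
    rw [hw]
    simp only
    split_ifs
    · exact hω0 _
    · exact le_rfl
  have hl0 : ∀ v, 0 ≤ lam v := by
    intro v
    rw [hlam]
    simp only
    split_ifs
    · exact hω0 _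
    · exact le_rfl
  have hwT : ∀ Y, Y ∉ TT → w Y = 0 := fun Y hY => by rw [hw]; simp only [hY, dif_neg, not_false_iff]
  have hload : ∀ v, load N w v = ∑ Y ∈ TT, if v ∈ Y then w Y else 0 := by
    intro v
    unfold load
    symm
    refine Finset.sum_subset (Finset.filter_subset _ _) fun Y _ hY => ?_
    rw [hwT Y hY, ite_self]
  have hsum : ∀ v ∈ VV, load N w v + lam v = μ v := by
    intro v hv
    have h1 := (hω ⟨v, hv⟩).2 (fun h => h)
    rw [Fintype.sum_sum_type] at h1
    simp only [Sum.elim_inl, Sum.elim_inr] at h1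
    have h2 : ∑ Y : TT, (if v ∈ (Y : Finset ℕ) then (1 : ℝ) else 0) * ω (Sum.inl Y) = load N w v := by
      rw [hload, ← Finset.sum_coe_sort TT (fun Y => if v ∈ Y then w Y else 0)]
      refine Finset.sum_congr rfl fun Y _ => ?_
      rw [hw]
      simp only [Y.2, dif_pos]
      split_ifs <;> simp
    have h3 : ∑ u : LL, (if v = (u : ℕ) then (1 : ℝ) else 0) * ω (Sum.inr u) = lam v := by
      rw [hlam]
      simp only
      split_ifs with h
      · rw [Finset.sum_eq_single (⟨v, h⟩ : LL)]
        · simp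
        · intro u _ hu
          rw [if_neg, zero_mul]
          intro h4
          exact hu (Subtype.ext h4.symm)
        · intro h5; exact absurd (Finset.mem_univ _) h5
      · refine Finset.sum_eq_zero fun u _ => ?_
        rw [if_neg, zero_mul]
        intro h4
        exact h (h4 ▸ u.2)
    rw [h2, h3] at h1
    exact h1
  have hlf : ∀ v, lam v * (f v - 1) = 0 := by
    intro v
    by_cases h : v ∈ LL
    · have := (Finset.mem_filter.1 h).2.2
      rw [this]; simp
    · rw [hlam]
      simp only [h, dif_neg, not_false_iff, zero_mul]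
  refine ⟨f, w, hf.1, ⟨hw0, fun Y hY => ?_⟩, fun v hv hfv => ?_, ?_⟩
  · by_contra hne
    apply hY
    apply hwT
    intro h
    exact hne (Finset.mem_filter.1 h).2
  · have := hsum v (Finset.mem_filter.2 ⟨Finset.mem_range.2 hv, hfv⟩)
    linarith [hl0 v]
  · -- the value
    have h1 : ∑ v ∈ range N, μ v * (f v - 1) =
        ∑ v ∈ VV, μ v * (f v - 1) - ∑ v ∈ (range N).filter (fun v => f v = 0), μ v := by
      rw [← Finset.sum_filter_add_sum_filter_not (range N) (fun v => 0 < f v)]
      have h2 : (range N).filter (fun v => ¬ 0 < f v) = (range N).filter (fun v => f v = 0) := by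
        apply Finset.filter_congr
        intro v _
        constructor
        · exact hf0 v
        · intro h; rw [h]; simp
      rw [h2, sub_eq_add_neg, ← Finset.sum_neg_distrib]
      congr 1
      refine Finset.sum_congr rfl fun v hv => ?_
      rw [(Finset.mem_filter.1 hv).2]
      ring
    have h3 : ∑ v ∈ VV, μ v * (f v - 1) = ∑ v ∈ VV, load N w v * (f v - 1) := by
      refine Finset.sum_congr rfl fun v hv => ?_
      rw [← hsum v hv, add_mul, hlf, add_zero]
    have h4 : ∑ v ∈ VV, load N w v * (f v - 1) = dfc N t w := by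
      have h5 : dfc N t w = ∑ Y ∈ TT, w Y * ((t : ℝ) - Y.card) := by
        unfold dfc
        symm
        refine Finset.sum_subset (Finset.filter_subset _ _) fun Y _ hY => ?_
        rw [hwT Y hY, zero_mul]
      rw [h5]
      simp only [hload, Finset.sum_mul]
      rw [Finset.sum_comm]
      refine Finset.sum_congr rfl fun Y hY => ?_
      have h6 : ∀ v, (if v ∈ Y then w Y else 0) * (f v - 1) =
          if v ∈ Y then w Y * (f v - 1) else 0 := by
        intro v; split_ifs <;> simp
      simp only [h6]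
      rw [← Finset.sum_filter]
      have h7 : VV.filter (fun v => v ∈ Y) = Y := by
        ext v
        simp only [Finset.mem_filter]
        exact ⟨fun h => h.2, fun h => ⟨hTV Y hY v h, h⟩⟩
      rw [h7, ← Finset.mul_sum, Finset.sum_sub_distrib, (Finset.mem_filter.1 hY).2.eq]
      simp
    rw [h1, h3, h4] at hpos
    linarith

end Pool.Agent.Helper87K9.PS
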